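import Pool.Agent.ZCyc.Basic
import Mathlib.LinearAlgebra.Projectivization.Basic

/-!
# Zero-cycles on projective varieties: definitions

Let `k` be an algebraically closed field of characteristic `0`. The points of a smooth projective
curve over `k` with function field `F` are the places of `F / k` (`Pool.Agent.ZCyc.Place`: the
valuation rings of `F` which contain `k` and are not `F`).

A morphism `φ` from this curve to a closed subset `X` of the projective space with homogeneous
coordinates indexed by `ι` is given by homogeneous coordinates `x i ∈ F`: the point `φ v` has the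
values of `l * x i` at `v` as homogeneous coordinates, for a suitable `l ∈ F` (`IsMorphism`).

The Chow group of zero-cycles of `X` (with coefficients in a field `R` of characteristic zero) is
the quotient of the space of zero-cycles by the subspace `ratEquiv` spanned by the cycles
`φ_* (π^* a - π^* b)`, where `π : D → ℙ¹` is a finite Galois covering of smooth projective curves
with group `G`, `a` and `b` are points of `ℙ¹` (`≠ ∞`), and `φ` is a morphism from `D` to `X`. If
`v` is a point of `D` above `a`, then `π^* a = ∑ τ v`, the sum over all `τ` in `G`. (Every function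
on a curve `D'`, i.e. every finite morphism `D' → ℙ¹`, is dominated by a Galois covering, so that
this is rational equivalence with coefficients in `R`.)
-/

open scoped LinearAlgebra.Projectivization

namespace Pool.Agent.ZDiag

open Pool.Agent.ZCyc (Place)

universe u w

variable {k : Type u} [Field k] {ι : Type}

/-- `φ` is a morphism from the curve with function field `F` to the subset `X` of the projective
space: there are homogeneous coordinates `x i` in `F` such that for every point `v` of the curve
and a suitable `l`, the functions `l * x i` have the homogeneous coordinates of `φ v ∈ X` as values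
at `v`. -/
def IsMorphism {F : Type u} [Field F] [Algebra k F] (X : Set (ℙ k (ι → k)))
    (φ : Place k F → ℙ k (ι → k)) : Prop :=
  ∃ x : ι → F, ∀ v, φ v ∈ X ∧ ∃ l : F, ∀ i, v.At (l * x i) ((φ v).rep i)

/-- The zero-cycles (with coefficients in `R`) on `X` which are rationally equivalent to zero: the
span of the cycles `φ_* (∑ τ, τ v) - φ_* (∑ τ, τ w)`, for all finite Galois coverings of the
projective line, given by extensions `F` of `k(X)`, all points `v` and `w` of `F` above points `a`
and `b` of the line, and all morphisms `φ` to `X`; the sums are over all `τ` in the Galois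
group. -/
noncomputable def ratEquiv (R : Type w) [Field R] (X : Set (ℙ k (ι → k))) :
    Submodule R (ℙ k (ι → k) →₀ R) :=
  Submodule.span R {z | ∃ (F : Type u) (_ : Field F) (_ : Algebra k F) (_ : Algebra (RatFunc k) F)
    (_ : IsScalarTower k (RatFunc k) F) (_ : FiniteDimensional (RatFunc k) F)
    (_ : IsGalois (RatFunc k) F) (φ : Place k F → ℙ k (ι → k)) (_ : IsMorphism X φ)
    (a b : k) (v w : Place k F)
    (_ : v.Vanishes (algebraMap (RatFunc k) F (RatFunc.X - RatFunc.C a)))
    (_ : w.Vanishes (algebraMap (RatFunc k) F (RatFunc.X - RatFunc.C b))),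
    z = ∑ τ : F ≃ₐ[RatFunc k] F, (Finsupp.single (φ (v.map (τ.restrictScalars k))) 1 -
      Finsupp.single (φ (w.map (τ.restrictScalars k))) 1)}

/-- The intersection of the diagonal hypersurfaces `∑ j, A i j * x j ^ m = 0`. -/
def diagonal {r N : ℕ} (A : Matrix (Fin r) (Fin N) k) (m : ℕ) : Set (ℙ k (Fin N → k)) :=
  {P | ∀ i, ∑ j, A i j * P.rep j ^ m = 0}

theorem smul_rep_ne_zero (h : ι → kˣ) (P : ℙ k (ι → k)) : (fun i => (h i : k) * P.rep i) ≠ 0 := by
  intro h0
  apply P.rep_nonzero
  ext i
  have := congrFun h0 i
  simpa using this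

/-- The diagonal automorphism `(x i) ↦ (h i * x i)` of the projective space. -/
noncomputable def act (h : ι → kˣ) (P : ℙ k (ι → k)) : ℙ k (ι → k) :=
  Projectivization.mk k (fun i => (h i : k) * P.rep i) (smul_rep_ne_zero h P)

/-! ## Basic facts -/

theorem exists_rep_eq {c : ι → k} (hc : c ≠ 0) :
    ∃ l : kˣ, (Projectivization.mk k c hc).rep = fun i => (l : k) * c i := by
  obtain ⟨l, hl⟩ := Projectivization.exists_smul_eq_mk_rep k c hc
  refine ⟨l, ?_⟩
  rw [← hl]
  rfl

theorem mk_eq_of {c d : ι → k} (hc : c ≠ 0) (hd : d ≠ 0) (l : k) (h : ∀ i, d i = l * c i) :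
    Projectivization.mk k c hc = Projectivization.mk k d hd := by
  rw [Projectivization.mk_eq_mk_iff']
  by_cases hl : l = 0
  · exfalso
    apply hd
    ext i
    rw [h i, hl, zero_mul]
    rfl
  · refine ⟨l⁻¹, ?_⟩
    ext i
    simp only [Pi.smul_apply, smul_eq_mul, h i]
    rw [inv_mul_cancel_left₀ hl]

theorem mk_mem_diagonal {r N : ℕ} {A : Matrix (Fin r) (Fin N) k} {m : ℕ} {c : Fin N → k}
    (hc : c ≠ 0) :
    Projectivization.mk k c hc ∈ diagonal A m ↔ ∀ i, ∑ j, A i j * c j ^ m = 0 := by
  obtain ⟨l, hl⟩ := exists_rep_eq hc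
  have h1 : ∀ i, ∑ j, A i j * (Projectivization.mk k c hc).rep j ^ m =
      (l : k) ^ m * ∑ j, A i j * c j ^ m := by
    intro i
    rw [hl, Finset.mul_sum]
    refine Finset.sum_congr rfl fun j _ => ?_
    rw [mul_pow]
    ring
  constructor
  · intro h i
    have h2 := h i
    rw [h1] at h2
    rcases mul_eq_zero.1 h2 with h3 | h3
    · exact absurd (eq_zero_of_pow_eq_zero h3) l.ne_zero
    · exact h3
  · intro h i
    rw [h1, h i, mul_zero]

theorem act_mk (h : ι → kˣ) {c : ι → k} (hc : c ≠ 0) (hc' : (fun i => (h i : k) * c i) ≠ 0) :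
    act h (Projectivization.mk k c hc) = Projectivization.mk k (fun i => (h i : k) * c i) hc' := by
  obtain ⟨l, hl⟩ := exists_rep_eq hc
  unfold act
  symm
  apply mk_eq_of _ _ (l : k)
  intro i
  rw [hl]
  ring

theorem act_act (g h : ι → kˣ) (P : ℙ k (ι → k)) : act g (act h P) = act (g * h) P := by
  unfold act
  obtain ⟨l, hl⟩ := exists_rep_eq (smul_rep_ne_zero h P)
  symm
  apply mk_eq_of _ _ (l : k)
  intro i
  rw [hl]
  simp only [Pi.mul_apply, Units.val_mul]
  ring

theorem act_one (P : ℙ k (ι → k)) : act 1 P = P := by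
  conv_rhs => rw [← P.mk_rep]
  unfold act
  apply mk_eq_of _ _ (1 : k)
  intro i
  simp

/-- scalars act trivially -/
theorem act_const (c : kˣ) (P : ℙ k (ι → k)) : act (fun _ => c) P = P := by
  conv_rhs => rw [← P.mk_rep]
  unfold act
  symm
  apply mk_eq_of _ _ (c : k)
  intro i
  rfl

/-- the action depends only on the coordinates which are not zero -/
theorem act_congr {g h : ι → kˣ} {P : ℙ k (ι → k)} (H : ∀ i, P.rep i ≠ 0 → g i = h i) :
    act g P = act h P := by
  unfold act
  apply mk_eq_of _ _ (1 : k)
  intro i
  rw [one_mul]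
  by_cases hi : P.rep i = 0
  · rw [hi, mul_zero, mul_zero]
  · rw [H i hi]

theorem act_mem {r N : ℕ} {A : Matrix (Fin r) (Fin N) k} {m : ℕ} {h : Fin N → kˣ}
    (hh : ∀ i, h i ^ m = 1) {P : ℙ k (Fin N → k)} (hP : P ∈ diagonal A m) :
    act h P ∈ diagonal A m := by
  unfold act
  rw [mk_mem_diagonal]
  intro i
  rw [← hP i]
  refine Finset.sum_congr rfl fun j _ => ?_
  have : ((h j : k)) ^ m = 1 := by
    rw [← Units.val_pow_eq_pow_val, hh j, Units.val_one]
  rw [mul_pow, this, one_mul]

end Pool.Agent.ZDiag
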