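import Mathlib

/-!
# Partitions of zero-sum sequences into blocks of index one: definition
-/

namespace Pool.Agent.ZDiag

/-- `s` is a sum of blocks `B` with `∑ x ∈ B, (t x).val = m`. -/
def GoodM {m : ℕ} (t : (ZMod m)ˣ) (s : Multiset (ZMod m)) : Prop :=
  ∃ L : Multiset (Multiset (ZMod m)), L.sum = s ∧
    ∀ B ∈ L, (B.map fun x => ((t : ZMod m) * x).val).sum = m

variable {m : ℕ} {t : (ZMod m)ˣ}

theorem GoodM.zero : GoodM t (0 : Multiset (ZMod m)) := ⟨0, rfl, fun B hB => by simp at hB⟩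

theorem GoodM.add {s s' : Multiset (ZMod m)} (h : GoodM t s) (h' : GoodM t s') :
    GoodM t (s + s') := by
  obtain ⟨L, h1, h2⟩ := h
  obtain ⟨L', h1', h2'⟩ := h'
  refine ⟨L + L', by rw [Multiset.sum_add, h1, h1'], fun B hB => ?_⟩
  rcases Multiset.mem_add.1 hB with hB | hB
  · exact h2 B hB
  · exact h2' B hB

theorem GoodM.single {B : Multiset (ZMod m)}
    (h : (B.map fun x => ((t : ZMod m) * x).val).sum = m) : GoodM t B :=
  ⟨{B}, Multiset.sum_singleton B, fun B' hB' => by rwa [Multiset.mem_singleton.1 hB']⟩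

theorem GoodM.nsmul {s : Multiset (ZMod m)} (h : GoodM t s) (n : ℕ) : GoodM t (n • s) := by
  induction n with
  | zero => rw [zero_nsmul]; exact GoodM.zero
  | succ n ih => rw [succ_nsmul]; exact ih.add h

/-- multiplication by a unit -/
theorem GoodM.of_smul {u : (ZMod m)ˣ} {s : Multiset (ZMod m)}
    (h : GoodM t (s.map fun x => (u : ZMod m) * x)) : GoodM (t * u) s := by
  obtain ⟨L, h1, h2⟩ := h
  refine ⟨L.map fun B => B.map fun x => ((u⁻¹ : (ZMod m)ˣ) : ZMod m) * x, ?_, ?_⟩
  · have h3 : (L.map fun B => B.map fun x => ((u⁻¹ : (ZMod m)ˣ) : ZMod m) * x).sum =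
        L.sum.map fun x => ((u⁻¹ : (ZMod m)ˣ) : ZMod m) * x := by
      have := map_multiset_sum (Multiset.mapAddMonoidHom
        (fun x : ZMod m => ((u⁻¹ : (ZMod m)ˣ) : ZMod m) * x)) L
      exact this.symm
    rw [h3, h1, Multiset.map_map]
    conv_rhs => rw [← Multiset.map_id s]
    refine Multiset.map_congr rfl fun x _ => ?_
    simp
  · intro B hB
    obtain ⟨B', hB', rfl⟩ := Multiset.mem_map.1 hB
    rw [Multiset.map_map]
    refine Eq.trans ?_ (h2 B' hB')
    congr 1
    refine Multiset.map_congr rfl fun x _ => ?_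
    simp only [Function.comp_apply, Units.val_mul]
    rw [mul_assoc, Units.mul_inv_cancel_left]

end Pool.Agent.ZDiag
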