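import Pool.Agent.ZDiag.Defs
import Mathlib.RingTheory.RootsOfUnity.Basic

/-!
# Operators on zero-cycles: definitions
-/

open scoped LinearAlgebra.Projectivization

namespace Pool.Agent.ZDiag

universe u w

variable {k : Type u} [Field k] {m N : ℕ}

noncomputable instance fintypeRoots [NeZero m] : Fintype (rootsOfUnity m k) := Fintype.ofFinite _

/-- an element of `μ_m ^ N` as a diagonal matrix -/
def toU (g : Fin N → rootsOfUnity m k) : Fin N → kˣ := fun j => (g j : kˣ)

/-- the character `∏ g j ^ a j` -/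
def chi (a : Fin N → ℕ) (g : Fin N → kˣ) : k := ∏ j, (g j : k) ^ a j

/-- the action on zero-cycles -/
noncomputable def actL {R : Type w} [Field R] (h : Fin N → kˣ) :
    (ℙ k (Fin N → k) →₀ R) →ₗ[R] (ℙ k (Fin N → k) →₀ R) := Finsupp.lmapDomain R R (act h)

variable (m) in
/-- `m ^ N` times the component of a point for the character `∏ g j ^ a j` -/
noncomputable def proj [NeZero m] (a : Fin N → ℕ) (P : ℙ k (Fin N → k)) :
    ℙ k (Fin N → k) →₀ k :=
  ∑ g : Fin N → rootsOfUnity m k, (chi a (toU g))⁻¹ • Finsupp.single (act (toU g) P) 1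

theorem chi_mul (a : Fin N → ℕ) (g h : Fin N → kˣ) : chi a (g * h) = chi a g * chi a h := by
  unfold chi
  rw [← Finset.prod_mul_distrib]
  refine Finset.prod_congr rfl fun j _ => ?_
  rw [Pi.mul_apply, Units.val_mul, mul_pow]

theorem chi_ne_zero (a : Fin N → ℕ) (g : Fin N → kˣ) : chi a g ≠ 0 := by
  unfold chi
  rw [Finset.prod_ne_zero_iff]
  intro j _
  exact pow_ne_zero _ (g j).ne_zero

theorem toU_mul (g h : Fin N → rootsOfUnity m k) : toU (g * h) = toU g * toU h := rfl

theorem toU_pow (g : Fin N → rootsOfUnity m k) (j : Fin N) : toU g j ^ m = 1 := (g j).2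

theorem actL_single {R : Type w} [Field R] (h : Fin N → kˣ) (P : ℙ k (Fin N → k)) (c : R) :
    actL h (Finsupp.single P c) = Finsupp.single (act h P) c := by
  unfold actL
  rw [Finsupp.lmapDomain_apply, Finsupp.mapDomain_single]

end Pool.Agent.ZDiag
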