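import Pool.Agent.ZDiag.Defs
import Mathlib

/-!
# Values of functions and of points of the projective space at places
-/

set_option autoImplicit false

open scoped LinearAlgebra.Projectivization
open Polynomial

namespace Pool.Agent.ZDiag

open Pool.Agent.ZCyc (Place)

universe u w

variable {k : Type u} [Field k] {ι : Type}

private lemma val_alg {k F : Type*} [Field k] [Field F] [Algebra k F] [Algebra (RatFunc k) F]
    [IsScalarTower k (RatFunc k) F] [Algebra.IsAlgebraic (RatFunc k) F] {t : F}
    (ht : Transcendental k t) : Algebra.IsAlgebraic (IntermediateField.adjoin k {t}) F := by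
  have h1 : IsTranscendenceBasis k (fun _ : Unit => (X : k[X])) := IsTranscendenceBasis.polynomial _ _
  have h0 : Algebra.IsAlgebraic k[X] (RatFunc k) := IsLocalization.isAlgebraic _ (nonZeroDivisors k[X])
  have h2 := h1.algebraMap_comp (A := RatFunc k)
  have h3 := h2.algebraMap_comp (A := F)
  have h4 := h3.lift_cardinalMk_eq_trdeg
  have h5 : AlgebraicIndependent k (fun _ : Unit => t) :=
    algebraicIndependent_unique_type_iff.2 ht
  have h6 := h5.isTranscendenceBasis_of_lift_trdeg_le_of_finite h4.ge
  have h7 := h6.isAlgebraic_field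
  rwa [Set.range_const] at h7

private lemma val_mem {k F : Type*} [Field k] [Field F] [Algebra k F] (P : Place k F)
    {K : IntermediateField k F} (hK : ∀ z ∈ K, z ∈ P.ring) {z : F} (hz : IsAlgebraic K z) :
    z ∈ P.ring := by
  have h1 : IsIntegral K z := hz.isIntegral
  obtain ⟨p, hp, hpz⟩ := h1
  let g : K →+* P.ring := (K.val : K →+* F).codRestrict P.ring.toSubring fun c => hK c c.2
  have h2 : IsIntegral P.ring z := by
    refine ⟨p.map g, hp.map g, ?_⟩
    rw [eval₂_map]
    exact hpz
  obtain ⟨y, hy⟩ := IsIntegrallyClosed.isIntegral_iff.1 h2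
  rw [← hy]
  exact y.2

private lemma val_const {k F : Type*} [Field k] [IsAlgClosed k] [Field F] [Algebra k F] {t : F}
    (ht : IsAlgebraic k t) : ∃ c, algebraMap k F c = t :=
  minpoly.mem_range_of_degree_eq_one k t
    (IsAlgClosed.degree_eq_one_of_irreducible k (minpoly.irreducible ht.isIntegral))

/-- residue fields -/
theorem exists_at [IsAlgClosed k] {F : Type u} [Field F] [Algebra k F] [Algebra (RatFunc k) F]
    [IsScalarTower k (RatFunc k) F] [FiniteDimensional (RatFunc k) F] (v : Place k F) {f : F}
    (hf : f ∈ v.ring) : ∃ c, v.At f c := by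
  by_cases halg : IsAlgebraic k f
  · obtain ⟨c, rfl⟩ := val_const halg
    exact ⟨c, Place.at_const c⟩
  by_contra hcon
  push Not at hcon
  -- nonzero polynomials in `f` do not vanish at `v`
  have h1 : ∀ p : k[X], p ≠ 0 → ¬ v.Vanishes (aeval f p) := by
    intro p hp hv
    have hs := (IsAlgClosed.splits p).eq_prod_roots
    rw [hs, _root_.map_mul, aeval_C] at hv
    have h2 : v.Vanishes (aeval f (Multiset.map (fun α => X - C α) p.roots).prod) := by
      have h3 := Place.Vanishes.mul' v hv (v.const_mem (p.leadingCoeff)⁻¹)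
      rw [map_inv₀, inv_mul_cancel_left₀ (by simpa using hp)] at h3
      exact h3
    have h4 : ∀ s : Multiset k, ¬ v.Vanishes (aeval f (Multiset.map (fun α => X - C α) s).prod) := by
      intro s
      induction s using Multiset.induction_on with
      | empty =>
        intro h5
        have := v.const_unit (one_ne_zero (α := k))
        apply this
        simpa using h5
      | cons b s ih =>
        intro h5
        rw [Multiset.map_cons, Multiset.prod_cons, _root_.map_mul, v.vanishes_iff,
          _root_.map_mul] at h5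
        have h6 := hcon b
        rw [Place.At, v.vanishes_iff, not_lt] at h6
        rw [v.vanishes_iff, not_lt] at ih
        have h7 : aeval f (X - C b) = f - algebraMap k F b := by simp
        rw [h7] at h5
        exact absurd h5 (not_lt.2 (one_le_mul h6 ih))
    exact h4 _ h2
  -- `k(f)` is contained in the ring
  have h2 : ∀ z ∈ IntermediateField.adjoin k {f}, z ∈ v.ring := by
    intro z hz
    rw [IntermediateField.mem_adjoin_simple_iff] at hz
    obtain ⟨r, s, rfl⟩ := hz
    have hr : ∀ p : k[X], aeval f p ∈ v.ring := by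
      intro p
      rw [aeval_eq_sum_range]
      apply sum_mem
      intro i _
      rw [Algebra.smul_def]
      exact mul_mem (v.const_mem _) (pow_mem hf i)
    rw [div_eq_mul_inv]
    apply mul_mem (hr r)
    by_cases hs : s = 0
    · rw [hs, map_zero, inv_zero]
      exact zero_mem _
    · have h3 := h1 s hs
      rw [v.vanishes_iff_or] at h3
      push Not at h3
      exact h3.2
  apply v.ne_top
  rw [eq_top_iff]
  intro z _
  have h3 : Algebra.IsAlgebraic (IntermediateField.adjoin k {f}) F := val_alg halg
  exact val_mem v h2 (h3.isAlgebraic z)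

/-- a scaling of the coordinates with values at `v` which are not all zero -/
private lemma exists_scaling [IsAlgClosed k] [Fintype ι] {F : Type u} [Field F] [Algebra k F]
    [Algebra (RatFunc k) F] [IsScalarTower k (RatFunc k) F] [FiniteDimensional (RatFunc k) F]
    (x : ι → F) (hx : x ≠ 0) (v : Place k F) :
    ∃ (l : F) (c : ι → k) (_ : c ≠ 0), ∀ i, v.At (l * x i) (c i) := by
  have hne : Nonempty ι := by
    by_contra hcon
    rw [not_nonempty_iff] at hcon
    exact hx (funext fun i => (hcon.false i).elim)
  obtain ⟨i₀, h₀⟩ := Finite.exists_max fun i => v.ring.valuation (x i)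
  have hxi : x i₀ ≠ 0 := by
    intro h0
    apply hx
    funext i
    have h1 := h₀ i
    rw [h0, _root_.map_zero, le_zero_iff, Valuation.zero_iff] at h1
    exact h1
  have hmem : ∀ i, (x i₀)⁻¹ * x i ∈ v.ring := by
    intro i
    rw [← ValuationSubring.valuation_le_one_iff, _root_.map_mul, map_inv₀]
    have hpos : 0 < v.ring.valuation (x i₀) := by
      rw [zero_lt_iff]
      exact (Valuation.ne_zero_iff _).2 hxi
    calc (v.ring.valuation (x i₀))⁻¹ * v.ring.valuation (x i)
        ≤ (v.ring.valuation (x i₀))⁻¹ * v.ring.valuation (x i₀) := by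
          gcongr
          exact h₀ i
      _ = 1 := inv_mul_cancel₀ hpos.ne'
  choose c hc using fun i => exists_at v (hmem i)
  refine ⟨(x i₀)⁻¹, c, ?_, hc⟩
  intro h0
  have h1 := hc i₀
  rw [inv_mul_cancel₀ hxi] at h1
  have h2 : v.At (1 : F) (1 : k) := by simpa using Place.at_const (v := v) (1 : k)
  have h3 := h1.unique h2
  rw [h0] at h3
  exact zero_ne_one h3

private lemma mk_eq_mk_of_at [Fintype ι] {F : Type u} [Field F] [Algebra k F] {v : Place k F}
    {x : ι → F} {l l' : F} {c c' : ι → k} (hc : c ≠ 0) (hc' : c' ≠ 0)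
    (h : ∀ i, v.At (l * x i) (c i)) (h' : ∀ i, v.At (l' * x i) (c' i)) :
    Projectivization.mk k c hc = Projectivization.mk k c' hc' := by
  obtain ⟨i, hi⟩ := Function.ne_iff.1 hc
  rw [Pi.zero_apply] at hi
  have hne : l * x i ≠ 0 := by
    intro h0
    have h1 := h i
    rw [h0] at h1
    have h2 : v.At (0 : F) (0 : k) := by simpa using Place.at_const (v := v) (0 : k)
    exact hi (h1.unique h2)
  have hl : l ≠ 0 := left_ne_zero_of_mul hne
  have hxi : x i ≠ 0 := right_ne_zero_of_mul hne
  have h1 : v.At (l' / l) (c' i / c i) := by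
    have h2 := (h' i).div (h i) hi
    have h3 : l' * x i / (l * x i) = l' / l := mul_div_mul_right _ _ hxi
    rwa [h3] at h2
  apply mk_eq_of hc hc' (c' i / c i)
  intro j
  have h2 := h1.mul (h j)
  have h3 : l' / l * (l * x j) = l' * x j := by
    field_simp
  rw [h3] at h2
  exact (h' j).unique h2

/-- every point of the projective space with coordinates in `F` is a morphism; the value at `v`
can be computed with any scaling `l` -/
theorem exists_morphism [IsAlgClosed k] [Fintype ι] {F : Type u} [Field F] [Algebra k F]
    [Algebra (RatFunc k) F] [IsScalarTower k (RatFunc k) F] [FiniteDimensional (RatFunc k) F]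
    (x : ι → F) (hx : x ≠ 0) :
    ∃ φ : Place k F → ℙ k (ι → k),
      (∀ v : Place k F, ∃ l : F, ∀ i, v.At (l * x i) ((φ v).rep i)) ∧
      ∀ (v : Place k F) (l : F) (c : ι → k) (hc : c ≠ 0), (∀ i, v.At (l * x i) (c i)) →
        φ v = Projectivization.mk k c hc := by
  choose l c hc h using fun v : Place k F => exists_scaling x hx v
  refine ⟨fun v => Projectivization.mk k (c v) (hc v), ?_, ?_⟩
  · intro v
    obtain ⟨a, ha⟩ := exists_rep_eq (hc v)
    refine ⟨algebraMap k F a * l v, fun i => ?_⟩
    rw [ha, mul_assoc]
    exact (Place.at_const _).mul (h v i)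
  · intro v l' c' hc' h'
    exact mk_eq_mk_of_at (hc v) hc' (h v) h'

/-- equations with constant coefficients between the `x j ^ m` hold for the values -/
theorem mem_diagonal_of_value {r N : ℕ} {A : Matrix (Fin r) (Fin N) k} {m : ℕ} {F : Type u}
    [Field F] [Algebra k F] {x : Fin N → F}
    (hx : ∀ i, ∑ j, algebraMap k F (A i j) * x j ^ m = 0) {v : Place k F} {l : F}
    {P : ℙ k (Fin N → k)} (h : ∀ i, v.At (l * x i) (P.rep i)) : P ∈ diagonal A m := by
  intro i
  have h1 : v.At (∑ j, algebraMap k F (A i j) * (l * x j) ^ m) (∑ j, A i j * P.rep j ^ m) :=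
    Place.At.sum fun j _ => (Place.at_const _).mul ((h j).pow m)
  have h2 : ∑ j, algebraMap k F (A i j) * (l * x j) ^ m = 0 := by
    have h3 : ∀ j, algebraMap k F (A i j) * (l * x j) ^ m =
        l ^ m * (algebraMap k F (A i j) * x j ^ m) := by
      intro j
      rw [mul_pow]
      ring
    rw [Finset.sum_congr rfl fun j _ => h3 j, ← Finset.mul_sum, hx i, mul_zero]
  rw [h2] at h1
  have h4 : v.At (0 : F) (0 : k) := by simpa using Place.at_const (v := v) (0 : k)
  exact h1.unique h4

end Pool.Agent.ZDiag
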